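import Pool.Agent.Q31.DS.Growth
import Pool.Agent.Q31.DS.Dense

/-!
# A finitely generated dense subgroup of subexponential growth in the iterated wreath product of A5

Let `W` be the group of all automorphisms of the `5`-regular rooted tree all of whose local
permutations are even (`evenAut`), that is, the infinite iterated permutational wreath product of
the alternating group of degree five.  We show that `W` contains a finitely generated dense
subgroup of subexponential growth.

The group is generated by two copies of the group `(ZMod 3) ^ 2` of directed automorphisms: the
first continues along the ray `333...` and has as local permutations powers of the three-cycle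
`(0 1 2)`, the second continues along the ray `111...` and has as local permutations powers of the
three-cycle `(2 3 4)`; the exponents are given by the four linear functionals
`x, y, x + y, x - y` in periodic order, so that every letter has trivial local permutation at one
out of four levels.
-/

namespace Pool.Agent.Results.MP_092669_al.DenseSubexponential

open Filter Topology Pool.Agent.Q31.DS

/-- The group `W` of all automorphisms of the rooted tree of words over `Fin 5` whose local
permutations are all even has a finitely generated subgroup `Γ` which induces on every level all
the permutations that `W` induces and which has subexponential growth: for every finite generating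
set `S` of `Γ` the growth function `γ` satisfies `γ(r) ^ (1 / r) → 1`. -/
theorem result : ∃ Γ : Subgroup (Equiv.Perm (List (Fin 5))),
    Γ ≤ evenAut ∧ Γ.FG ∧ IsDenseInEvenAut Γ ∧
    ∀ S : Finset (Equiv.Perm (List (Fin 5))),
      Subgroup.closure (S : Set (Equiv.Perm (List (Fin 5)))) = Γ →
      Tendsto (fun r : ℕ => (growth S r : ℝ) ^ (1 / (r : ℝ))) atTop (𝓝 1) := by
  refine ⟨G 0, G_le 0, G_fg 0, ?_, fun S hS => growth_G 0 S hS⟩
  intro n w hw
  obtain ⟨a, ha, h⟩ := full_G 0 n w hw
  exact ⟨a, ha, fun u hu => h u hu.le⟩

end Pool.Agent.Results.MP_092669_al.DenseSubexponential
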